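import Pool.Agent.Helper76.PC.Stmts

set_option autoImplicit false

namespace Pool.Agent.Helper76.PC

open Finset

variable {n : ℕ}

def mat_S (A : Matrix (Fin n) (Fin n) ℕ) : Finset (Fin n × Fin n) :=
  univ.filter (fun p : Fin n × Fin n => A p.1 p.2 = 1)

def mat_N (A : Matrix (Fin n) (Fin n) ℕ) (x : ℕ) : Finset ℕ :=
  ((mat_S A).filter (fun p => 2 * (p.1 : ℕ) = x)).image (fun p => 2 * (p.2 : ℕ) + 1) ∪
  ((mat_S A).filter (fun p => 2 * (p.2 : ℕ) + 1 = x)).image (fun p => 2 * (p.1 : ℕ))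

lemma mat_mem (A : Matrix (Fin n) (Fin n) ℕ) (x y : ℕ) :
    y ∈ mat_N A x ↔ ∃ i j : Fin n, A i j = 1 ∧
      ((x = 2 * (i : ℕ) ∧ y = 2 * (j : ℕ) + 1) ∨ (x = 2 * (j : ℕ) + 1 ∧ y = 2 * (i : ℕ))) := by
  unfold mat_N mat_S
  simp only [mem_union, mem_image, mem_filter, mem_univ, true_and, Prod.exists]
  constructor
  · rintro (⟨i, j, ⟨h1, h2⟩, h3⟩ | ⟨i, j, ⟨h1, h2⟩, h3⟩)
    · exact ⟨i, j, h1, Or.inl ⟨h2.symm, h3.symm⟩⟩
    · exact ⟨i, j, h1, Or.inr ⟨h2.symm, h3.symm⟩⟩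
  · rintro ⟨i, j, h1, (⟨h2, h3⟩ | ⟨h2, h3⟩)⟩
    · exact Or.inl ⟨i, j, ⟨h1, h2.symm⟩, h3.symm⟩
    · exact Or.inr ⟨i, j, ⟨h1, h2.symm⟩, h3.symm⟩

lemma mat_memE (A : Matrix (Fin n) (Fin n) ℕ) (i : Fin n) (y : ℕ) :
    y ∈ mat_N A (2 * (i : ℕ)) ↔ ∃ j : Fin n, A i j = 1 ∧ y = 2 * (j : ℕ) + 1 := by
  rw [mat_mem]
  constructor
  · rintro ⟨i', j, h1, (⟨h2, h3⟩ | ⟨h2, h3⟩)⟩
    · have : i = i' := Fin.ext (by omega)
      subst this
      exact ⟨j, h1, h3⟩
    · omega
  · rintro ⟨j, h1, h2⟩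
    exact ⟨i, j, h1, Or.inl ⟨rfl, h2⟩⟩

lemma mat_memO (A : Matrix (Fin n) (Fin n) ℕ) (j : Fin n) (y : ℕ) :
    y ∈ mat_N A (2 * (j : ℕ) + 1) ↔ ∃ i : Fin n, A i j = 1 ∧ y = 2 * (i : ℕ) := by
  rw [mat_mem]
  constructor
  · rintro ⟨i, j', h1, (⟨h2, h3⟩ | ⟨h2, h3⟩)⟩
    · omega
    · have : j = j' := Fin.ext (by omega)
      subst this
      exact ⟨i, h1, h3⟩
  · rintro ⟨i, h1, h2⟩
    exact ⟨i, j, h1, Or.inr ⟨rfl, h2⟩⟩

def mat_G (A : Matrix (Fin n) (Fin n) ℕ)
    (h4 : ∀ i i' j j', i ≠ i' → j ≠ j' → A i j = 1 → A i j' = 1 → A i' j = 1 → A i' j' = 1 →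
      False) : Gr where
  V := range (2 * n)
  N := mat_N A
  symm := by
    intro x y h
    rw [mat_mem] at h ⊢
    obtain ⟨i, j, h1, h2⟩ := h
    exact ⟨i, j, h1, h2.elim (fun h => Or.inr ⟨h.2, h.1⟩) (fun h => Or.inl ⟨h.2, h.1⟩)⟩
  mem := by
    intro x y h
    rw [mat_mem] at h
    obtain ⟨i, j, h1, h2⟩ := h
    have hi := i.2
    have hj := j.2
    rw [mem_range]
    omega
  bip := by
    intro x y h
    rw [mat_mem] at h
    obtain ⟨i, j, h1, h2⟩ := h
    unfold side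
    rcases h2 with ⟨rfl, rfl⟩ | ⟨rfl, rfl⟩
    · have e1 : 2 * (i : ℕ) % 2 = 0 := by omega
      have e2 : (2 * (j : ℕ) + 1) % 2 = 1 := by omega
      rw [e1, e2]
      decide
    · have e1 : 2 * (i : ℕ) % 2 = 0 := by omega
      have e2 : (2 * (j : ℕ) + 1) % 2 = 1 := by omega
      rw [e1, e2]
      decide
  c4 := by
    intro x z hxz y y' h1 h2 h3 h4'
    rw [mat_mem] at h1 h2 h3 h4'
    obtain ⟨i1, j1, a1, b1⟩ := h1
    obtain ⟨i2, j2, a2, b2⟩ := h2
    obtain ⟨i3, j3, a3, b3⟩ := h3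
    obtain ⟨i4, j4, a4, b4⟩ := h4'
    by_contra hyy
    rcases b1 with ⟨c1, d1⟩ | ⟨c1, d1⟩
    · have e3 : i3 = i1 ∧ y' = 2 * (j3 : ℕ) + 1 := by
        rcases b3 with ⟨c3, d3⟩ | ⟨c3, d3⟩
        · exact ⟨Fin.ext (by omega), d3⟩
        · omega
      have e2 : j2 = j1 ∧ z = 2 * (i2 : ℕ) := by
        rcases b2 with ⟨c3, d3⟩ | ⟨c3, d3⟩
        · exact ⟨Fin.ext (by omega), c3⟩
        · omega
      have e4 : i4 = i2 ∧ j4 = j3 := by
        rcases b4 with ⟨c3, d3⟩ | ⟨c3, d3⟩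
        · exact ⟨Fin.ext (by omega), Fin.ext (by omega)⟩
        · omega
      obtain ⟨rfl, e3b⟩ := e3
      obtain ⟨rfl, e2b⟩ := e2
      obtain ⟨rfl, rfl⟩ := e4
      refine h4 i3 i4 j2 j4 ?_ ?_ a1 a3 a2 a4
      · rintro rfl
        exact hxz (by omega)
      · rintro rfl
        exact hyy (by omega)
    · have e3 : j3 = j1 ∧ y' = 2 * (i3 : ℕ) := by
        rcases b3 with ⟨c3, d3⟩ | ⟨c3, d3⟩
        · omega
        · exact ⟨Fin.ext (by omega), d3⟩
      have e2 : i2 = i1 ∧ z = 2 * (j2 : ℕ) + 1 := by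
        rcases b2 with ⟨c3, d3⟩ | ⟨c3, d3⟩
        · omega
        · exact ⟨Fin.ext (by omega), c3⟩
      have e4 : j4 = j2 ∧ i4 = i3 := by
        rcases b4 with ⟨c3, d3⟩ | ⟨c3, d3⟩
        · omega
        · exact ⟨Fin.ext (by omega), Fin.ext (by omega)⟩
      obtain ⟨rfl, e3b⟩ := e3
      obtain ⟨rfl, e2b⟩ := e2
      obtain ⟨rfl, rfl⟩ := e4
      refine h4 i2 i4 j3 j4 ?_ ?_ a1 a2 a3 a4
      · rintro rfl
        exact hyy (by omega)
      · rintro rfl
        exact hxz (by omega)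

lemma mat_card (A : Matrix (Fin n) (Fin n) ℕ) (x : ℕ) :
    (mat_N A x).card = ((mat_S A).filter (fun p => 2 * (p.1 : ℕ) = x)).card +
      ((mat_S A).filter (fun p => 2 * (p.2 : ℕ) + 1 = x)).card := by
  unfold mat_N
  rw [card_union_of_disjoint]
  · congr 1
    · apply card_image_of_injOn
      intro p hp q hq h
      simp only [coe_filter, Set.mem_ofPred_eq] at hp hq h
      apply Prod.ext <;> apply Fin.ext
      · omega
      · omega
    · apply card_image_of_injOn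
      intro p hp q hq h
      simp only [coe_filter, Set.mem_ofPred_eq] at hp hq h
      apply Prod.ext <;> apply Fin.ext
      · omega
      · omega
  · rw [Finset.disjoint_left]
    intro y h1 h2
    simp only [mem_image] at h1 h2
    obtain ⟨p, _, h3⟩ := h1
    obtain ⟨q, _, h4⟩ := h2
    omega

lemma mat_deg (A : Matrix (Fin n) (Fin n) ℕ) :
    ∑ x ∈ range (2 * n), (mat_N A x).card = 2 * (mat_S A).card := by
  have h1 : ∑ x ∈ range (2 * n), (mat_N A x).card = ∑ x ∈ range (2 * n),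
      (((mat_S A).filter (fun p => 2 * (p.1 : ℕ) = x)).card +
      ((mat_S A).filter (fun p => 2 * (p.2 : ℕ) + 1 = x)).card) :=
    sum_congr rfl (fun x _ => mat_card A x)
  rw [h1, sum_add_distrib]
  rw [← card_eq_sum_card_fiberwise (f := fun p : Fin n × Fin n => 2 * (p.1 : ℕ))
      (s := mat_S A) (t := range (2 * n)),
    ← card_eq_sum_card_fiberwise (f := fun p : Fin n × Fin n => 2 * (p.2 : ℕ) + 1)
      (s := mat_S A) (t := range (2 * n))]
  · omega
  · intro p _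
    simp only [coe_range, Set.mem_Iio]
    have := p.2.2
    omega
  · intro p _
    simp only [coe_range, Set.mem_Iio]
    have := p.1.2
    omega

def mat_m (s : Equiv.Perm (Fin n)) (x : ℕ) : ℕ :=
  if h : x < 2 * n then
    (if x % 2 = 0 then 2 * ((s.symm ⟨x / 2, by omega⟩ : Fin n) : ℕ) + 1
      else 2 * ((s ⟨x / 2, by omega⟩ : Fin n) : ℕ))
  else x

lemma mat_mE (s : Equiv.Perm (Fin n)) (i : Fin n) :
    mat_m s (2 * (i : ℕ)) = 2 * ((s.symm i : Fin n) : ℕ) + 1 := by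
  have hi := i.2
  have h1 : 2 * (i : ℕ) < 2 * n := by omega
  have h2 : 2 * (i : ℕ) % 2 = 0 := by omega
  unfold mat_m
  rw [dif_pos h1, if_pos h2]
  have h3 : (⟨2 * (i : ℕ) / 2, by omega⟩ : Fin n) = i := Fin.ext (by simp)
  rw [h3]

lemma mat_mO (s : Equiv.Perm (Fin n)) (j : Fin n) :
    mat_m s (2 * (j : ℕ) + 1) = 2 * ((s j : Fin n) : ℕ) := by
  have hj := j.2
  have h1 : 2 * (j : ℕ) + 1 < 2 * n := by omega
  have h2 : ¬ (2 * (j : ℕ) + 1) % 2 = 0 := by omega
  unfold mat_m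
  rw [dif_pos h1, if_neg h2]
  have h3 : (⟨(2 * (j : ℕ) + 1) / 2, by omega⟩ : Fin n) = j := Fin.ext (by simp; omega)
  rw [h3]

lemma mat_cases (x : ℕ) (hx : x < 2 * n) :
    (∃ i : Fin n, x = 2 * (i : ℕ)) ∨ (∃ j : Fin n, x = 2 * (j : ℕ) + 1) := by
  rcases Nat.even_or_odd' x with ⟨c, h | h⟩
  · exact Or.inl ⟨⟨c, by omega⟩, h⟩
  · exact Or.inr ⟨⟨c, by omega⟩, h⟩

lemma mat_PM (A : Matrix (Fin n) (Fin n) ℕ)
    (h4 : ∀ i i' j j', i ≠ i' → j ≠ j' → A i j = 1 → A i j' = 1 → A i' j = 1 → A i' j' = 1 →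
      False) :
    PM (mat_G A h4) = mat_m '' {s : Equiv.Perm (Fin n) | ∀ i, A (s i) i = 1} := by
  ext m
  constructor
  · rintro ⟨h1, h2, h3⟩
    have hO : ∀ j : Fin n, ∃ k : Fin n, A k j = 1 ∧ m (2 * (j : ℕ) + 1) = 2 * (k : ℕ) := by
      intro j
      have hj := j.2
      have := h1 (2 * (j : ℕ) + 1) (by
        show _ ∈ range (2 * n)
        rw [mem_range]
        omega)
      exact (mat_memO A j _).1 this
    have hE : ∀ i : Fin n, ∃ k : Fin n, A i k = 1 ∧ m (2 * (i : ℕ)) = 2 * (k : ℕ) + 1 := by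
      intro i
      have hi := i.2
      have := h1 (2 * (i : ℕ)) (by
        show _ ∈ range (2 * n)
        rw [mem_range]
        omega)
      exact (mat_memE A i _).1 this
    choose f hf1 hf2 using hO
    have hinj : Function.Injective f := by
      intro a b hab
      have e1 := h3 (2 * (a : ℕ) + 1)
      have e2 := h3 (2 * (b : ℕ) + 1)
      rw [hf2] at e1 e2
      rw [hab, e2] at e1
      exact Fin.ext (by omega)
    have hbij : Function.Bijective f := Finite.injective_iff_bijective.1 hinj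
    refine ⟨Equiv.ofBijective f hbij, fun i => hf1 i, ?_⟩
    funext x
    by_cases hx : x < 2 * n
    · rcases mat_cases x hx with ⟨i, rfl⟩ | ⟨j, rfl⟩
      · rw [mat_mE]
        obtain ⟨k, _, hk⟩ := hE i
        have e1 := h3 (2 * (i : ℕ))
        rw [hk, hf2] at e1
        have e2 : f k = i := Fin.ext (by omega)
        have e3 : (Equiv.ofBijective f hbij).symm i = k := by
          rw [Equiv.symm_apply_eq]
          exact e2.symm
        rw [e3, hk]
      · rw [mat_mO, hf2]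
        rfl
    · have e1 : mat_m (Equiv.ofBijective f hbij) x = x := by
        unfold mat_m
        rw [dif_neg hx]
      rw [e1]
      exact (h2 x (by
        show x ∉ range (2 * n)
        rw [mem_range]
        exact hx)).symm
  · rintro ⟨s, hs, rfl⟩
    refine ⟨?_, ?_, ?_⟩
    · intro x hx
      have hx' : x < 2 * n := by
        have : x ∈ range (2 * n) := hx
        rwa [mem_range] at this
      show mat_m s x ∈ mat_N A x
      rcases mat_cases x hx' with ⟨i, rfl⟩ | ⟨j, rfl⟩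
      · rw [mat_mE, mat_memE]
        refine ⟨s.symm i, ?_, rfl⟩
        have := hs (s.symm i)
        rwa [Equiv.apply_symm_apply] at this
      · rw [mat_mO, mat_memO]
        exact ⟨s j, hs j, rfl⟩
    · intro x hx
      have hx' : ¬ x < 2 * n := by
        intro h
        apply hx
        show x ∈ range (2 * n)
        rwa [mem_range]
      unfold mat_m
      rw [dif_neg hx']
    · intro x
      by_cases hx : x < 2 * n
      · rcases mat_cases x hx with ⟨i, rfl⟩ | ⟨j, rfl⟩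
        · rw [mat_mE, mat_mO, Equiv.apply_symm_apply]
        · rw [mat_mO, mat_mE, Equiv.symm_apply_apply]
      · have e1 : mat_m s x = x := by
          unfold mat_m
          rw [dif_neg hx]
        rw [e1, e1]

lemma mat_inj : Function.Injective (mat_m : Equiv.Perm (Fin n) → ℕ → ℕ) := by
  intro s t h
  apply Equiv.ext
  intro j
  have := congrFun h (2 * (j : ℕ) + 1)
  rw [mat_mO, mat_mO] at this
  exact Fin.ext (by omega)

theorem st_MAT : ST_MAT := by
  intro n A h01 h4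
  refine ⟨mat_G A h4, ?_, ?_, ?_⟩
  · show (range (2 * n)).card = 2 * n
    rw [card_range]
  · exact mat_deg A
  · classical
    unfold P
    rw [mat_PM, Set.ncard_image_of_injective _ mat_inj]
    have e1 : {s : Equiv.Perm (Fin n) | ∀ i, A (s i) i = 1} =
        ((univ.filter (fun s : Equiv.Perm (Fin n) => ∀ i, A (s i) i = 1) :
          Finset (Equiv.Perm (Fin n))) : Set (Equiv.Perm (Fin n))) := by
      ext s
      simp
    rw [e1, Set.ncard_coe_finset, card_filter]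
    unfold Matrix.permanent
    refine sum_congr rfl (fun s _ => ?_)
    by_cases hs : ∀ i, A (s i) i = 1
    · rw [if_pos hs, prod_eq_one (fun i _ => hs i)]
    · rw [if_neg hs]
      push Not at hs
      obtain ⟨i, hi⟩ := hs
      rw [prod_eq_zero (mem_univ i)]
      rcases h01 (s i) i with h | h
      · exact h
      · exact absurd h hi

end Pool.Agent.Helper76.PC
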